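import Mathlib

set_option autoImplicit false

open Finset

namespace Pool.Agent.H439.Broom

/-- parent function of the broom -/
def par (t i : ℕ) : ℕ := if i ≤ t + 1 then 0 else i - 1

/-- The broom with `t` leaves at the centre `0` and a tail of `t` vertices `t+1, ..., 2t`. -/
def broom (t : ℕ) : SimpleGraph (Fin (2 * t + 1)) :=
  SimpleGraph.fromRel (fun i j => 0 < i.val ∧ par t i.val = j.val)

theorem broom_adj (t : ℕ) (i j : Fin (2 * t + 1)) : (broom t).Adj i j ↔
    i ≠ j ∧ ((0 < i.val ∧ par t i.val = j.val) ∨ (0 < j.val ∧ par t j.val = i.val)) := by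
  unfold broom
  rw [SimpleGraph.fromRel_adj]

theorem par_lt (t i : ℕ) (hi : 0 < i) : par t i < i := by
  unfold par
  split_ifs <;> omega

theorem broom_connected (t : ℕ) : (broom t).Connected := by
  have h0 : ∀ k : ℕ, ∀ i : Fin (2 * t + 1), i.val = k → (broom t).Reachable i 0 := by
    intro k
    induction k using Nat.strong_induction_on with
    | _ k ih =>
      intro i hi
      rcases Nat.eq_zero_or_pos k with h | h
      · have : i = 0 := by
          apply Fin.ext
          rw [hi, h]; rfl
        rw [this]
      · have hp := par_lt t k h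
        have hlt : par t k < 2 * t + 1 := by have := i.isLt; omega
        have h1 := ih (par t k) hp ⟨par t k, hlt⟩ rfl
        have h2 : (broom t).Adj i ⟨par t k, hlt⟩ := by
          rw [broom_adj]
          refine ⟨?_, Or.inl ⟨by omega, by rw [hi]⟩⟩
          intro he
          have := congrArg Fin.val he
          simp only at this
          omega
        exact h2.reachable.trans h1
  haveI : Nonempty (Fin (2 * t + 1)) := ⟨0⟩
  refine SimpleGraph.Connected.mk ?_
  intro i j
  exact (h0 _ i rfl).trans (h0 _ j rfl).symm

theorem broom_isTree (t : ℕ) : (broom t).IsTree := by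
  classical
  rw [SimpleGraph.isTree_iff_connected_and_card]
  refine ⟨broom_connected t, ?_⟩
  have h1 := (broom_connected t).card_vert_le_card_edgeSet_add_one
  have hV : Nat.card (Fin (2 * t + 1)) = 2 * t + 1 := by simp
  have h2 : Nat.card (broom t).edgeSet ≤ 2 * t := by
    have hsub : (broom t).edgeSet ⊆ ((fun i : Fin (2 * t) =>
        (s((⟨i.val + 1, by omega⟩ : Fin (2 * t + 1)),
          (⟨par t (i.val + 1), by have := par_lt t (i.val + 1) (by omega); omega⟩ : Fin (2 * t + 1))) :
            Sym2 (Fin (2 * t + 1)))) '' Set.univ) := by
      intro e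
      induction e with
      | _ a b =>
        rw [SimpleGraph.mem_edgeSet, broom_adj]
        rintro ⟨hne, h | h⟩
        · refine ⟨⟨a.val - 1, by omega⟩, trivial, ?_⟩
          have e1 : a.val - 1 + 1 = a.val := by omega
          apply Sym2.eq_iff.2
          left
          constructor
          · apply Fin.ext
            simp only
            omega
          · apply Fin.ext
            simp only
            rw [e1]
            exact h.2
        · refine ⟨⟨b.val - 1, by omega⟩, trivial, ?_⟩
          have e1 : b.val - 1 + 1 = b.val := by omega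
          apply Sym2.eq_iff.2
          right
          constructor
          · apply Fin.ext
            simp only
            omega
          · apply Fin.ext
            simp only
            rw [e1]
            exact h.2
    calc Nat.card (broom t).edgeSet = (broom t).edgeSet.ncard := rfl
      _ ≤ _ := Set.ncard_le_ncard hsub (Set.toFinite _)
      _ ≤ (Set.univ : Set (Fin (2 * t))).ncard := Set.ncard_image_le (Set.toFinite _)
      _ = 2 * t := by simp [Set.ncard_univ]
  omega

/-- embedding criterion -/
theorem broom_embed {V : Type} [DecidableEq V] (G : SimpleGraph V) (t : ℕ) (u : V) (p : ℕ → V)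
    (L : Finset V) (hp0 : p 0 = u) (hadj : ∀ i < t, G.Adj (p i) (p (i + 1)))
    (hinj : ∀ i ≤ t, ∀ j ≤ t, p i = p j → i = j) (hL : ∀ x ∈ L, G.Adj u x)
    (hLd : ∀ x ∈ L, ∀ i ≤ t, x ≠ p i) (hLc : t ≤ L.card) :
    ∃ f : Fin (2 * t + 1) → V, Function.Injective f ∧
      ∀ i j, (broom t).Adj i j → G.Adj (f i) (f j) := by
  classical
  set l : ℕ → V := fun k => if h : k < t then
    ((L.equivFin.symm ⟨k, lt_of_lt_of_le h hLc⟩ : L) : V) else u with hl
  have hlL : ∀ k < t, l k ∈ L := by
    intro k hk
    simp only [hl, dif_pos hk]
    exact (L.equivFin.symm ⟨k, lt_of_lt_of_le hk hLc⟩).2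
  have hli : ∀ k < t, ∀ k' < t, l k = l k' → k = k' := by
    intro k hk k' hk' h
    simp only [hl, dif_pos hk, dif_pos hk'] at h
    have h1 := L.equivFin.symm.injective (Subtype.ext h)
    exact congrArg Fin.val h1
  set f : Fin (2 * t + 1) → V := fun i => if i.val = 0 then u else
    if i.val ≤ t then l (i.val - 1) else p (i.val - t) with hf
  have key : ∀ i : Fin (2 * t + 1), 0 < i.val → ∀ j : Fin (2 * t + 1), par t i.val = j.val →
      G.Adj (f j) (f i) := by
    intro i hi j hj
    unfold par at hj
    by_cases h1 : i.val ≤ t
    · rw [if_pos (by omega)] at hj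
      simp only [hf, ← hj, if_true, if_neg hi.ne', if_pos h1]
      exact hL _ (hlL _ (by omega))
    · by_cases h2 : i.val = t + 1
      · rw [if_pos (by omega)] at hj
        have e : i.val - t = 1 := by omega
        simp only [hf, ← hj, if_true, if_neg hi.ne', if_neg h1, e]
        rw [← hp0]
        exact hadj 0 (by have := i.isLt; omega)
      · rw [if_neg (by omega)] at hj
        have hj1 : j.val ≠ 0 := by omega
        have hj2 : ¬ j.val ≤ t := by omega
        simp only [hf, if_neg hj1, if_neg hj2, if_neg hi.ne', if_neg h1]
        have e : i.val - t = (j.val - t) + 1 := by omega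
        rw [e]
        exact hadj _ (by have := i.isLt; omega)
  refine ⟨f, ?_, ?_⟩
  · intro i j hij
    apply Fin.ext
    have hi := i.isLt
    have hj := j.isLt
    simp only [hf] at hij
    split_ifs at hij with a1 b1 b2 a2 c1 c2 d1 d2
    · omega
    · exact absurd rfl ((hij ▸ hL _ (hlL _ (by omega : j.val - 1 < t))).ne)
    · rw [← hp0] at hij
      have := hinj _ (by omega) _ (by omega) hij
      omega
    · exact absurd rfl ((hij ▸ hL _ (hlL _ (by omega : i.val - 1 < t))).ne)
    · have := hli _ (by omega) _ (by omega) hij
      omega
    · exact absurd hij (hLd _ (hlL _ (by omega)) _ (by omega))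
    · rw [← hp0] at hij
      have := hinj _ (by omega) _ (by omega) hij
      omega
    · exact absurd hij.symm (hLd _ (hlL _ (by omega)) _ (by omega))
    · have := hinj _ (by omega) _ (by omega) hij
      omega
  · intro i j h
    rw [broom_adj] at h
    rcases h.2 with h | h
    · exact (key i h.1 j h.2).symm
    · exact key j h.1 i h.2

/-- balls -/
noncomputable def B {V : Type} [Fintype V] [DecidableEq V] (G : SimpleGraph V)
    [DecidableRel G.Adj] : ℕ → V → Finset V
  | 0, x => {x}
  | r + 1, x => insert x ((G.neighborFinset x).biUnion (B G r))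

theorem B_card {V : Type} [Fintype V] [DecidableEq V] (G : SimpleGraph V) [DecidableRel G.Adj]
    (t : ℕ) (ht : 1 ≤ t) (hd : ∀ v, G.degree v + 1 ≤ 2 * t) (r : ℕ) (x : V) :
    (B G r x).card ≤ (2 * t) ^ r := by
  induction r generalizing x with
  | zero => simp [B]
  | succ r ih =>
    have h1 : (B G (r + 1) x).card ≤ ((G.neighborFinset x).biUnion (B G r)).card + 1 := by
      rw [B]
      exact Finset.card_insert_le _ _
    have h2 := Finset.card_biUnion_le_card_mul (G.neighborFinset x) (B G r) ((2 * t) ^ r)
      (fun a _ => ih a)
    rw [G.card_neighborFinset_eq_degree] at h2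
    have h3 : 1 ≤ (2 * t) ^ r := Nat.one_le_pow _ _ (by omega)
    have h4 : (G.degree x + 1) * (2 * t) ^ r ≤ (2 * t) * (2 * t) ^ r :=
      Nat.mul_le_mul_right _ (hd x)
    rw [pow_succ]
    nlinarith

theorem B_mem {V : Type} [Fintype V] [DecidableEq V] (G : SimpleGraph V) [DecidableRel G.Adj]
    (r : ℕ) : ∀ (x y : V) (q : G.Walk x y), q.length ≤ r → y ∈ B G r x := by
  induction r with
  | zero =>
    intro x y q hq
    cases q with
    | nil => simp [B]
    | cons h q => simp at hq
  | succ r ih =>
    intro x y q hq
    cases q with
    | nil => simp [B]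
    | cons h q' =>
      rw [B, mem_insert, mem_biUnion]
      right
      refine ⟨_, ?_, ih _ _ q' (by simpa using hq)⟩
      simpa using h

theorem parity_card (m : ℕ) : 2 * ((range m).filter (fun i => i % 2 ≠ m % 2)).card ≤ m + 1 := by
  have h : ((range m).filter (fun i => i % 2 ≠ m % 2)).card ≤ (range ((m + 1) / 2)).card := by
    apply Finset.card_le_card_of_injOn (fun i => i / 2)
    · intro i hi
      simp only [coe_filter, mem_range, Set.mem_setOf_eq] at hi
      simp only [coe_range, Set.mem_Iio]
      omega
    · intro i hi j hj hij
      simp only [coe_filter, mem_range, Set.mem_setOf_eq] at hi hj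
      simp only at hij
      omega
  rw [card_range] at h
  omega

theorem main (t n : ℕ) (ht : 1 ≤ t) (hn : (2 * t) ^ t < 2 * n)
    (G : SimpleGraph (Fin n ⊕ Fin n)) (hG : G ≤ completeBipartiteGraph (Fin n) (Fin n))
    (hc : G.Connected)
    (hT : ¬ ∃ f : Fin (2 * t + 1) → Fin n ⊕ Fin n, Function.Injective f ∧
      ∀ i j, (broom t).Adj i j → G.Adj (f i) (f j)) :
    G.edgeSet.ncard ≤ t * n := by
  classical
  have hside : ∀ a b, G.Adj a b → a.isLeft ≠ b.isLeft := by
    intro a b h
    have := hG h
    rcases a with a | a <;> rcases b with b | b <;> simp_all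
  have hE : G.edgeSet.ncard = G.edgeFinset.card := by
    rw [← SimpleGraph.coe_edgeFinset, Set.ncard_coe_finset]
  have hsum := G.sum_degrees_eq_twice_card_edges
  have hcard : (univ : Finset (Fin n ⊕ Fin n)).card = 2 * n := by
    simp [Fintype.card_sum]; omega
  rw [hE]
  by_cases hbig : ∃ v, 2 * t ≤ G.degree v
  · obtain ⟨v, hv⟩ := hbig
    have hpath : ∀ w (q : G.Walk v w), q.IsPath → q.length + 1 ≤ t := by
      intro w q hq
      by_contra hlen
      apply hT
      have hinj := hq.getVert_injOn
      refine broom_embed G t v q.getVert (G.neighborFinset v \ (Icc 1 t).image q.getVert)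
        (by simp) (fun i hi => q.adj_getVert_succ (by omega)) ?_ ?_ ?_ ?_
      · intro i hi j hj hij
        exact hinj (by simp; omega) (by simp; omega) hij
      · intro x hx
        rw [mem_sdiff, SimpleGraph.mem_neighborFinset] at hx
        exact hx.1
      · intro x hx i hi he
        rw [mem_sdiff, SimpleGraph.mem_neighborFinset] at hx
        rcases Nat.eq_zero_or_pos i with h0 | h0
        · rw [he, h0, SimpleGraph.Walk.getVert_zero] at hx
          exact hx.1.ne rfl
        · exact hx.2 (mem_image.2 ⟨i, mem_Icc.2 ⟨h0, hi⟩, he.symm⟩)
      · have h1 : ((Icc 1 t).image q.getVert).card ≤ t := by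
          refine le_trans card_image_le ?_
          simp
        have h2 := Finset.le_card_sdiff ((Icc 1 t).image q.getVert) (G.neighborFinset v)
        rw [G.card_neighborFinset_eq_degree] at h2
        omega
    have hex : ∀ u, ∃ q : G.Walk v u, q.IsPath ∧ ∀ q' : G.Walk v u, q'.IsPath →
        q'.length ≤ q.length := by
      intro u
      obtain ⟨q0, hq0⟩ := hc.exists_isPath v u
      have hP : ∃ q : G.Walk v u, q.IsPath ∧ q.length =
          Nat.findGreatest (fun l => ∃ q : G.Walk v u, q.IsPath ∧ q.length = l) t :=
        Nat.findGreatest_spec (P := fun l => ∃ q : G.Walk v u, q.IsPath ∧ q.length = l)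
          (m := q0.length) (by have := hpath u q0 hq0; omega) ⟨q0, hq0, rfl⟩
      obtain ⟨q, hq, hql⟩ := hP
      refine ⟨q, hq, fun q' hq' => ?_⟩
      rw [hql]
      exact Nat.le_findGreatest (by have := hpath u q' hq'; omega) ⟨q', hq', rfl⟩
    choose q hq hmax using hex
    set lam : Fin n ⊕ Fin n → ℕ := fun u => (q u).length with hlam
    have hbound : ∀ u, 2 * ((univ : Finset (Fin n ⊕ Fin n)).filter
        (fun w => G.Adj u w ∧ lam w ≤ lam u)).card ≤ t := by
      intro u
      have hpar : ∀ i ≤ (q u).length, ((q u).getVert i).isLeft = (v.isLeft ^^ decide (i % 2 = 1)) := by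
        intro i
        induction i with
        | zero => intro _; simp
        | succ i ih =>
          intro hi
          have h1 := ih (by omega)
          have h2 := hside _ _ ((q u).adj_getVert_succ (i := i) (by omega))
          rw [h1] at h2
          have h3 : decide ((i + 1) % 2 = 1) = !decide (i % 2 = 1) := by
            rcases Nat.mod_two_eq_zero_or_one i with h | h
            · have : (i + 1) % 2 = 1 := by omega
              simp [h, this]
            · have : (i + 1) % 2 = 0 := by omega
              simp [h, this]
          rw [h3]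
          revert h2
          cases ((q u).getVert (i + 1)).isLeft <;> cases v.isLeft <;> cases decide (i % 2 = 1) <;>
            simp
      have hsub : ((univ : Finset (Fin n ⊕ Fin n)).filter
          (fun w => G.Adj u w ∧ lam w ≤ lam u)) ⊆
          ((range (lam u)).filter (fun i => i % 2 ≠ (lam u) % 2)).image (q u).getVert := by
        intro w hw
        rw [mem_filter] at hw
        obtain ⟨_, hadj, hle⟩ := hw
        have hmem : w ∈ (q u).support := by
          by_contra hns
          have h1 := hmax w ((q u).concat hadj) ((hq u).concat hns hadj)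
          rw [SimpleGraph.Walk.length_concat] at h1
          have h2 : (q w).length ≤ (q u).length := hle
          omega
        obtain ⟨i, hi, hil⟩ := SimpleGraph.Walk.mem_support_iff_exists_getVert.1 hmem
        have hend : (q u).getVert (q u).length = u := SimpleGraph.Walk.getVert_length _
        have hne : i ≠ (q u).length := by
          intro he
          rw [he, hend] at hi
          exact hadj.ne hi
        rw [mem_image]
        refine ⟨i, ?_, hi⟩
        rw [mem_filter, mem_range]
        refine ⟨by simp only [hlam]; omega, ?_⟩
        intro hmod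
        have h1 := hpar i hil
        have h2 := hpar _ (le_refl (q u).length)
        rw [hi] at h1
        rw [hend] at h2
        apply hside _ _ hadj
        rw [h1, h2]
        have : i % 2 = (q u).length % 2 := hmod
        rw [this]
      have h1 := le_trans (card_le_card hsub) card_image_le
      have h2 := parity_card (lam u)
      have h3 : lam u + 1 ≤ t := hpath u (q u) (hq u)
      omega
    have hdeg : ∀ u, G.degree u = ∑ w, (if G.Adj u w then 1 else 0) := by
      intro u
      rw [← G.card_neighborFinset_eq_degree, SimpleGraph.neighborFinset_eq_filter,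
        Finset.card_filter]
    have hA : ∀ u, ((univ : Finset (Fin n ⊕ Fin n)).filter
        (fun w => G.Adj u w ∧ lam w ≤ lam u)).card =
          ∑ w, (if G.Adj u w ∧ lam w ≤ lam u then 1 else 0) := by
      intro u
      rw [Finset.card_filter]
    have hle : ∑ u, G.degree u ≤ 2 * ∑ u, ((univ : Finset (Fin n ⊕ Fin n)).filter
        (fun w => G.Adj u w ∧ lam w ≤ lam u)).card := by
      simp only [hdeg, hA]
      have h1 : ∑ u, ∑ w, (if G.Adj u w then 1 else 0) ≤
          ∑ u, ∑ w, ((if G.Adj u w ∧ lam w ≤ lam u then 1 else 0) +
            (if G.Adj w u ∧ lam u ≤ lam w then 1 else 0)) := by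
        refine sum_le_sum fun u _ => sum_le_sum fun w _ => ?_
        by_cases h : G.Adj u w
        · rcases le_total (lam w) (lam u) with h2 | h2
          · simp [h, h2]
          · simp [h, h2, h.symm]
        · simp [h]
      refine le_trans h1 (le_of_eq ?_)
      have h2 : ∑ u, ∑ w, (if G.Adj w u ∧ lam u ≤ lam w then 1 else 0) =
          ∑ u, ∑ w, (if G.Adj u w ∧ lam w ≤ lam u then 1 else 0) := Finset.sum_comm
      simp only [sum_add_distrib]
      rw [h2]
      ring
    have h5 : 2 * ∑ u, ((univ : Finset (Fin n ⊕ Fin n)).filter
        (fun w => G.Adj u w ∧ lam w ≤ lam u)).card ≤ (2 * n) * t := by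
      rw [mul_sum]
      refine le_trans (sum_le_sum fun u _ => hbound u) ?_
      rw [sum_const, hcard, smul_eq_mul]
    rw [hsum] at hle
    nlinarith
  · push Not at hbig
    have hdt : ∀ u, G.degree u ≤ t := by
      intro u
      by_contra hu
      apply hT
      have hfar : ∃ w, t ≤ G.dist u w := by
        by_contra hno
        push Not at hno
        have h1 : (univ : Finset (Fin n ⊕ Fin n)) ⊆ B G t u := by
          intro w _
          obtain ⟨q, hq⟩ := hc.exists_walk_length_eq_dist u w
          exact B_mem G t u w q (by have := hno w; omega)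
        have h2 := card_le_card h1
        have h3 := B_card G t ht (fun v => hbig v) t u
        omega
      obtain ⟨w, hw⟩ := hfar
      obtain ⟨q, hq⟩ := hc.exists_walk_length_eq_dist u w
      have hqp : q.IsPath := q.isPath_of_length_eq_dist hq
      have hinj := hqp.getVert_injOn
      have hnadj : ∀ i, 2 ≤ i → i ≤ q.length → ¬ G.Adj u (q.getVert i) := by
        intro i h2 hi hadj
        have h1 := SimpleGraph.dist_le (SimpleGraph.Walk.cons hadj (q.drop i))
        rw [SimpleGraph.Walk.length_cons, SimpleGraph.Walk.drop_length] at h1
        omega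
      refine broom_embed G t u q.getVert ((G.neighborFinset u).erase (q.getVert 1))
        (by simp) (fun i hi => q.adj_getVert_succ (by omega)) ?_ ?_ ?_ ?_
      · intro i hi j hj hij
        exact hinj (by simp; omega) (by simp; omega) hij
      · intro x hx
        rw [mem_erase, SimpleGraph.mem_neighborFinset] at hx
        exact hx.2
      · intro x hx i hi he
        rw [mem_erase, SimpleGraph.mem_neighborFinset] at hx
        rcases Nat.lt_or_ge i 2 with h | h
        · interval_cases i
          · rw [he, SimpleGraph.Walk.getVert_zero] at hx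
            exact hx.2.ne rfl
          · exact hx.1 he
        · exact hnadj i h (by omega) (he ▸ hx.2)
      · have := Finset.pred_card_le_card_erase (s := G.neighborFinset u) (a := q.getVert 1)
        rw [G.card_neighborFinset_eq_degree] at this
        omega
    have h1 : ∑ u, G.degree u ≤ (2 * n) * t := by
      refine le_trans (sum_le_sum fun u _ => hdt u) ?_
      rw [sum_const, hcard, smul_eq_mul]
    rw [hsum] at h1
    nlinarith

end Pool.Agent.H439.Broom
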