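import Mathlib

/-!
# Common tools for MP_0aed39_co (EF1 allocations with few conflict violations)

Goods are the elements of a finite type `M`, agents are `Fin n`, an allocation is a map
`A : M → Fin n` (good `g` goes to agent `A g`).
-/

namespace Pool.Agent.H439.EF1Core

open Finset

/-- `A` is envy-free up to one good: for all agents `i, j`, either the bundle of `j` is empty or
for some good `g` of the bundle of `j`, agent `i` values her own bundle at least as much as the
bundle of `j` without `g`. -/
def EF1 {n : ℕ} {M : Type} [Fintype M] [DecidableEq M] (v : Fin n → M → ℝ) (A : M → Fin n) :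
    Prop :=
  ∀ i j : Fin n, (∀ g, A g ≠ j) ∨
    ∃ g, A g = j ∧ ∑ h ∈ univ.filter (fun h => A h = j ∧ h ≠ g), v i h ≤
      ∑ h ∈ univ.filter (fun h => A h = i), v i h

/-- The number of violations of `A`: the number of edges of the conflict graph `G` whose two
endpoints are given to the same agent. -/
noncomputable def viol {n : ℕ} {M : Type} [Fintype M] [DecidableEq M] (G : SimpleGraph M)
    [DecidableRel G.Adj] (A : M → Fin n) : ℕ :=
  (G.edgeFinset.filter (fun e => (Sym2.map A e).IsDiag)).card

section core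

variable {n : ℕ} {M : Type} [Fintype M] [DecidableEq M]

/-- Level-by-level domination gives the EF1 inequality. -/
theorem dom (u : M → ℝ) (hu : ∀ g, 0 ≤ u g) (lev : M → ℕ) (B : M → Fin n)
    (inj : ∀ g h, lev g = lev h → B g = B h → g = h)
    (full : ∀ h s, s < lev h → ∀ k, ∃ g, lev g = s ∧ B g = k) (a : Fin n)
    (pref : ∀ g h, B g = a → lev g < lev h → u h ≤ u g) (b : Fin n) :
    (∀ g, B g ≠ b) ∨ ∃ g, B g = b ∧ ∑ h ∈ univ.filter (fun h => B h = b ∧ h ≠ g), u h ≤
      ∑ h ∈ univ.filter (fun h => B h = a), u h := by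
  classical
  by_cases hb : ∀ g, B g ≠ b
  · exact Or.inl hb
  right
  push Not at hb
  obtain ⟨g1, hg1⟩ := hb
  -- a good of level `0` in the class `b`
  obtain ⟨g0, hl0, hB0⟩ : ∃ g0, lev g0 = 0 ∧ B g0 = b := by
    rcases Nat.eq_zero_or_pos (lev g1) with h0 | h0
    · exact ⟨g1, h0, hg1⟩
    · exact full g1 0 h0 b
  refine ⟨g0, hB0, ?_⟩
  have key : ∀ h, ∃ g, (0 < lev h → lev g + 1 = lev h ∧ B g = a) := by
    intro h
    by_cases h0 : 0 < lev h
    · obtain ⟨g, hg, hga⟩ := full h (lev h - 1) (by omega) a
      exact ⟨g, fun _ => ⟨by omega, hga⟩⟩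
    · exact ⟨h, fun h1 => absurd h1 h0⟩
  choose φ hφ using key
  have hpos : ∀ h ∈ univ.filter (fun h => B h = b ∧ h ≠ g0), 0 < lev h := by
    intro h hh
    rw [mem_filter] at hh
    rcases Nat.eq_zero_or_pos (lev h) with h0 | h0
    · exact absurd (inj h g0 (by rw [h0, hl0]) (by rw [hh.2.1, hB0])) hh.2.2
    · exact h0
  have hinj : Set.InjOn φ (univ.filter (fun h => B h = b ∧ h ≠ g0) : Finset M) := by
    intro h hh h' hh' he
    have h1 := hφ h (hpos h hh)
    have h2 := hφ h' (hpos h' hh')
    have h3 : lev h = lev h' := by rw [← h1.1, ← h2.1, he]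
    have hh1 := hh
    have hh2 := hh'
    simp only [coe_filter, mem_univ, true_and, Set.mem_ofPred_eq] at hh1 hh2
    exact inj h h' h3 (by rw [hh1.1, hh2.1])
  calc ∑ h ∈ univ.filter (fun h => B h = b ∧ h ≠ g0), u h
      ≤ ∑ h ∈ univ.filter (fun h => B h = b ∧ h ≠ g0), u (φ h) := by
        refine sum_le_sum fun h hh => ?_
        have h1 := hφ h (hpos h hh)
        exact pref (φ h) h h1.2 (by omega)
    _ = ∑ g ∈ (univ.filter (fun h => B h = b ∧ h ≠ g0)).image φ, u g := by
        rw [sum_image hinj]
    _ ≤ ∑ h ∈ univ.filter (fun h => B h = a), u h := by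
        refine sum_le_sum_of_subset_of_nonneg ?_ fun g _ _ => hu g
        intro g hg
        rw [mem_image] at hg
        obtain ⟨h, hh, rfl⟩ := hg
        rw [mem_filter]
        exact ⟨mem_univ _, (hφ h (hpos h hh)).2⟩

/-- The allocation obtained from positions by shifting every level `t ≥ 1` by `c t`. -/
def shiftAlloc [NeZero n] (T : ℕ) (lev : M → ℕ) (hT : ∀ g, lev g < T) (pos : M → Fin n)
    (c : Fin T → Fin n) (g : M) : Fin n :=
  pos g + (if lev g = 0 then 0 else c ⟨lev g, hT g⟩)

omit [Fintype M] [DecidableEq M] in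
theorem count_one [NeZero n] (T : ℕ) (lev : M → ℕ) (hT : ∀ g, lev g < T) (pos : M → Fin n)
    (g h : M) (hh : lev h ≠ 0) (hgh : lev g ≠ lev h) :
    (univ.filter (fun c : Fin T → Fin n =>
      shiftAlloc T lev hT pos c g = shiftAlloc T lev hT pos c h)).card * n ≤
      (univ : Finset (Fin T → Fin n)).card := by
  classical
  set S := univ.filter (fun c : Fin T → Fin n =>
      shiftAlloc T lev hT pos c g = shiftAlloc T lev hT pos c h) with hS
  have h1 : S.card * n = (S ×ˢ (univ : Finset (Fin n))).card := by
    rw [card_product, card_univ, Fintype.card_fin]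
  rw [h1]
  set t : Fin T := ⟨lev h, hT h⟩ with ht
  refine card_le_card_of_injOn (fun p => Function.update p.1 t (p.1 t + p.2))
    (fun p _ => mem_univ _) ?_
  rintro ⟨c, d⟩ hp ⟨c', d'⟩ hp' he
  simp only [coe_product, Set.mem_prod, mem_coe, coe_univ, Set.mem_univ, and_true] at hp hp'
  rw [hS, mem_filter] at hp hp'
  have hc := hp.2
  have hc' := hp'.2
  simp only at he
  have hoff : ∀ s, s ≠ t → c s = c' s := by
    intro s hs
    have := congrFun he s
    rwa [Function.update_of_ne hs, Function.update_of_ne hs] at this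
  have hon : c t + d = c' t + d' := by
    have := congrFun he t
    rwa [Function.update_self, Function.update_self] at this
  have hgt : (⟨lev g, hT g⟩ : Fin T) ≠ t := by
    intro h2
    exact hgh (by simpa [ht] using h2)
  have hct : c t = c' t := by
    unfold shiftAlloc at hc hc'
    rw [if_neg hh] at hc hc'
    have h3 : (if lev g = 0 then (0 : Fin n) else c ⟨lev g, hT g⟩) =
        (if lev g = 0 then (0 : Fin n) else c' ⟨lev g, hT g⟩) := by
      rw [hoff _ hgt]
    rw [h3] at hc
    have h4 : pos h + c t = pos h + c' t := by rw [← hc, ← hc']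
    exact add_left_cancel h4
  have hcc : c = c' := by
    funext s
    by_cases hs : s = t
    · rw [hs, hct]
    · exact hoff s hs
  subst hcc
  have hdd : d = d' := add_left_cancel hon
  rw [hdd]

omit [Fintype M] [DecidableEq M] in
theorem count [NeZero n] (T : ℕ) (lev : M → ℕ) (hT : ∀ g, lev g < T) (pos : M → Fin n)
    (inj : ∀ g h, lev g = lev h → pos g = pos h → g = h) (g h : M) (hgh : g ≠ h) :
    (univ.filter (fun c : Fin T → Fin n =>
      shiftAlloc T lev hT pos c g = shiftAlloc T lev hT pos c h)).card * n ≤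
      (univ : Finset (Fin T → Fin n)).card := by
  classical
  by_cases hl : lev g = lev h
  · have : univ.filter (fun c : Fin T → Fin n =>
      shiftAlloc T lev hT pos c g = shiftAlloc T lev hT pos c h) = ∅ := by
      rw [filter_eq_empty_iff]
      intro c _ hc
      apply hgh
      apply inj g h hl
      unfold shiftAlloc at hc
      by_cases h0 : lev g = 0
      · rw [if_pos h0, if_pos (hl ▸ h0)] at hc
        exact add_right_cancel hc
      · rw [if_neg h0, if_neg (hl ▸ h0)] at hc
        have h5 : (⟨lev g, hT g⟩ : Fin T) = ⟨lev h, hT h⟩ := by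
          apply Fin.ext; exact hl
        rw [h5] at hc
        exact add_right_cancel hc
    rw [this]
    simp
  · by_cases hh : lev h = 0
    · have hg0 : lev g ≠ 0 := fun h0 => hl (by rw [h0, hh])
      have := count_one T lev hT pos h g hg0 (fun h0 => hl h0.symm)
      have h6 : univ.filter (fun c : Fin T → Fin n =>
          shiftAlloc T lev hT pos c g = shiftAlloc T lev hT pos c h) =
          univ.filter (fun c : Fin T → Fin n =>
          shiftAlloc T lev hT pos c h = shiftAlloc T lev hT pos c g) := by
        apply filter_congr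
        intro c _
        exact eq_comm
      rw [h6]
      exact this
    · exact count_one T lev hT pos g h hh hl

theorem exists_shift [NeZero n] (G : SimpleGraph M) [DecidableRel G.Adj] (T : ℕ) (lev : M → ℕ)
    (hT : ∀ g, lev g < T) (pos : M → Fin n)
    (inj : ∀ g h, lev g = lev h → pos g = pos h → g = h) :
    ∃ c : Fin T → Fin n, n * viol G (shiftAlloc T lev hT pos c) ≤ G.edgeFinset.card := by
  classical
  by_contra hcon
  push Not at hcon
  have h1 : ∑ c : Fin T → Fin n, viol G (shiftAlloc T lev hT pos c) =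
      ∑ e ∈ G.edgeFinset, (univ.filter (fun c : Fin T → Fin n =>
        (Sym2.map (shiftAlloc T lev hT pos c) e).IsDiag)).card := by
    unfold viol
    simp_rw [card_filter]
    rw [sum_comm]
  have h2 : ∀ e ∈ G.edgeFinset, (univ.filter (fun c : Fin T → Fin n =>
        (Sym2.map (shiftAlloc T lev hT pos c) e).IsDiag)).card * n ≤
        (univ : Finset (Fin T → Fin n)).card := by
    intro e he
    induction e using Sym2.ind with
    | _ g h =>
      rw [SimpleGraph.mem_edgeFinset, SimpleGraph.mem_edgeSet] at he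
      have := count T lev hT pos inj g h he.ne
      simpa only [Sym2.map_mk, Sym2.mk_isDiag_iff] using this
  have h3 : n * ∑ c : Fin T → Fin n, viol G (shiftAlloc T lev hT pos c) ≤
      G.edgeFinset.card * (univ : Finset (Fin T → Fin n)).card := by
    rw [h1, mul_sum]
    calc ∑ e ∈ G.edgeFinset, n * (univ.filter (fun c : Fin T → Fin n =>
          (Sym2.map (shiftAlloc T lev hT pos c) e).IsDiag)).card
        ≤ ∑ e ∈ G.edgeFinset, (univ : Finset (Fin T → Fin n)).card :=
          sum_le_sum fun e he => by rw [mul_comm]; exact h2 e he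
      _ = _ := by rw [sum_const, smul_eq_mul]
  have h4 : G.edgeFinset.card * (univ : Finset (Fin T → Fin n)).card <
      n * ∑ c : Fin T → Fin n, viol G (shiftAlloc T lev hT pos c) := by
    rw [mul_sum]
    calc G.edgeFinset.card * (univ : Finset (Fin T → Fin n)).card
        = ∑ _c : Fin T → Fin n, G.edgeFinset.card := by
          rw [sum_const, smul_eq_mul, mul_comm]
      _ < _ := by
          apply sum_lt_sum_of_nonempty
          · exact univ_nonempty
          · intro c _
            exact hcon c
  omega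

omit [Fintype M] [DecidableEq M] in
theorem shift_inj [NeZero n] (T : ℕ) (lev : M → ℕ) (hT : ∀ g, lev g < T) (pos : M → Fin n)
    (inj : ∀ g h, lev g = lev h → pos g = pos h → g = h) (c : Fin T → Fin n) :
    ∀ g h, lev g = lev h → shiftAlloc T lev hT pos c g = shiftAlloc T lev hT pos c h → g = h := by
  intro g h hl hc
  apply inj g h hl
  unfold shiftAlloc at hc
  by_cases h0 : lev g = 0
  · rw [if_pos h0, if_pos (hl ▸ h0)] at hc
    exact add_right_cancel hc
  · rw [if_neg h0, if_neg (hl ▸ h0)] at hc
    have h5 : (⟨lev g, hT g⟩ : Fin T) = ⟨lev h, hT h⟩ := by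
      apply Fin.ext; exact hl
    rw [h5] at hc
    exact add_right_cancel hc

omit [Fintype M] [DecidableEq M] in
theorem shift_full [NeZero n] (T : ℕ) (lev : M → ℕ) (hT : ∀ g, lev g < T) (pos : M → Fin n)
    (full : ∀ h s, s < lev h → ∀ k, ∃ g, lev g = s ∧ pos g = k) (c : Fin T → Fin n) :
    ∀ h s, s < lev h → ∀ k, ∃ g, lev g = s ∧ shiftAlloc T lev hT pos c g = k := by
  intro h s hs k
  have hsT : s < T := lt_trans hs (hT h)
  obtain ⟨g, hg, hp⟩ := full h s hs (k - (if s = 0 then 0 else c ⟨s, hsT⟩))
  refine ⟨g, hg, ?_⟩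
  subst hg
  unfold shiftAlloc
  rw [hp]
  exact sub_add_cancel _ _

end core

/-- Serial dictatorship. -/
theorem serial {M : Type} [Fintype M] [DecidableEq M] : ∀ (n : ℕ) (S : Finset M), n ≤ S.card →
    ∀ v : Fin n → M → ℝ, ∃ x : Fin n → M, Function.Injective x ∧ (∀ i, x i ∈ S) ∧
      ∀ i, ∀ g ∈ S, g ∉ Set.range x → v i g ≤ v i (x i) := by
  intro n
  induction n with
  | zero =>
    intro S _ v
    exact ⟨Fin.elim0, fun i => i.elim0, fun i => i.elim0, fun i => i.elim0⟩
  | succ n ih =>
    intro S hS v
    have hne : S.Nonempty := card_pos.mp (by omega)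
    obtain ⟨g0, hg0, hmax⟩ := exists_max_image S (v 0) hne
    obtain ⟨x, hx1, hx2, hx3⟩ := ih (S.erase g0) (by rw [card_erase_of_mem hg0]; omega)
      (fun i => v i.succ)
    refine ⟨Fin.cons g0 x, ?_, ?_, ?_⟩
    · rw [Fin.cons_injective_iff]
      refine ⟨?_, hx1⟩
      rintro ⟨i, hi⟩
      have := hx2 i
      rw [hi] at this
      exact (mem_erase.mp this).1 rfl
    · intro i
      refine Fin.cases ?_ ?_ i
      · simpa using hg0
      · intro j
        simpa using (mem_erase.mp (hx2 j)).2
    · intro i g hg hgr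
      have hgr0 : g ≠ g0 := by
        rintro rfl
        exact hgr ⟨0, by simp⟩
      have hgr1 : g ∉ Set.range x := by
        rintro ⟨j, rfl⟩
        exact hgr ⟨j.succ, by simp⟩
      refine Fin.cases ?_ ?_ i
      · simpa using hmax g hg
      · intro j
        simpa using hx3 j g (mem_erase.mpr ⟨hgr0, hg⟩) hgr1

end Pool.Agent.H439.EF1Core
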